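import Mathlib
set_option autoImplicit false

/-!
Finite-dimensional blocks for a nearly unconditional basis which is not truncation quasi-greedy.

The block of size `M` has coordinates `Fin (M ^ 2) ⊕ Fin M` and the norm
`‖f‖_∞ + ∑_p |f_p + s(f) / M²| + Sch(f)`, where `s(f)` is the sum of the coordinates in `Fin M` and
`Sch` is a Schreier type norm of these coordinates.
-/

namespace Pool.Agent.N249.NU

open Finset

/-- coordinates of the block of size `M` -/
abbrev Idx (M : ℕ) : Type := Fin (M ^ 2) ⊕ Fin M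

/-- admissible sets of the Schreier type norm -/
def adm (M : ℕ) : Finset (Finset (Fin M)) :=
  univ.filter fun D => ∀ ν ∈ D, D.card ≤ 2 * (ν.val + 1)

lemma empty_mem_adm (M : ℕ) : (∅ : Finset (Fin M)) ∈ adm M := by simp [adm]

lemma adm_nonempty (M : ℕ) : (adm M).Nonempty := ⟨∅, empty_mem_adm M⟩

/-- the sum of the coordinates in `Fin M` -/
def sm {M : ℕ} (f : Idx M → ℝ) : ℝ := ∑ ν : Fin M, f (Sum.inr ν)

/-- the `ℓ_1` part of the norm -/
noncomputable def n1 {M : ℕ} (f : Idx M → ℝ) : ℝ :=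
  ∑ p : Fin (M ^ 2), |f (Sum.inl p) + sm f / (M : ℝ) ^ 2|

/-- the Schreier type part of the norm -/
noncomputable def sch {M : ℕ} (f : Idx M → ℝ) : ℝ :=
  (adm M).sup' (adm_nonempty M) fun D => ∑ ν ∈ D, |f (Sum.inr ν)|

/-- the norm of the block -/
noncomputable def nrm {M : ℕ} (f : Idx M → ℝ) : ℝ := ‖f‖ + n1 f + sch f

lemma sm_add {M : ℕ} (f g : Idx M → ℝ) : sm (f + g) = sm f + sm g := by
  simp [sm, Finset.sum_add_distrib]

lemma sm_smul {M : ℕ} (c : ℝ) (f : Idx M → ℝ) : sm (c • f) = c * sm f := by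
  simp [sm, Finset.mul_sum]

lemma n1_nonneg {M : ℕ} (f : Idx M → ℝ) : 0 ≤ n1 f := Finset.sum_nonneg fun _ _ => abs_nonneg _

lemma n1_add {M : ℕ} (f g : Idx M → ℝ) : n1 (f + g) ≤ n1 f + n1 g := by
  unfold n1
  rw [← Finset.sum_add_distrib]
  refine Finset.sum_le_sum fun p _ => ?_
  rw [sm_add, Pi.add_apply]
  calc |f (Sum.inl p) + g (Sum.inl p) + (sm f + sm g) / (M : ℝ) ^ 2|
      = |(f (Sum.inl p) + sm f / (M : ℝ) ^ 2) + (g (Sum.inl p) + sm g / (M : ℝ) ^ 2)| := by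
        congr 1; ring
    _ ≤ _ := abs_add_le _ _

lemma n1_smul {M : ℕ} (c : ℝ) (f : Idx M → ℝ) : n1 (c • f) = |c| * n1 f := by
  unfold n1
  rw [Finset.mul_sum]
  refine Finset.sum_congr rfl fun p _ => ?_
  rw [sm_smul, Pi.smul_apply, smul_eq_mul, ← abs_mul]
  congr 1; ring

lemma le_sch {M : ℕ} (f : Idx M → ℝ) {D : Finset (Fin M)} (hD : D ∈ adm M) :
    ∑ ν ∈ D, |f (Sum.inr ν)| ≤ sch f :=
  Finset.le_sup' (fun D => ∑ ν ∈ D, |f (Sum.inr ν)|) hD

lemma sch_le {M : ℕ} (f : Idx M → ℝ) {r : ℝ} (h : ∀ D ∈ adm M, ∑ ν ∈ D, |f (Sum.inr ν)| ≤ r) :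
    sch f ≤ r := Finset.sup'_le _ _ h

lemma sch_nonneg {M : ℕ} (f : Idx M → ℝ) : 0 ≤ sch f := by
  simpa using le_sch f (empty_mem_adm M)

lemma sch_add {M : ℕ} (f g : Idx M → ℝ) : sch (f + g) ≤ sch f + sch g := by
  refine sch_le _ fun D hD => ?_
  calc ∑ ν ∈ D, |(f + g) (Sum.inr ν)| ≤ ∑ ν ∈ D, (|f (Sum.inr ν)| + |g (Sum.inr ν)|) :=
        Finset.sum_le_sum fun ν _ => abs_add_le _ _
    _ = ∑ ν ∈ D, |f (Sum.inr ν)| + ∑ ν ∈ D, |g (Sum.inr ν)| := Finset.sum_add_distrib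
    _ ≤ _ := add_le_add (le_sch f hD) (le_sch g hD)

lemma sch_smul_le {M : ℕ} (c : ℝ) (f : Idx M → ℝ) : sch (c • f) ≤ |c| * sch f := by
  refine sch_le _ fun D hD => ?_
  calc ∑ ν ∈ D, |(c • f) (Sum.inr ν)| = |c| * ∑ ν ∈ D, |f (Sum.inr ν)| := by
        rw [Finset.mul_sum]
        exact Finset.sum_congr rfl fun ν _ => by rw [Pi.smul_apply, smul_eq_mul, abs_mul]
    _ ≤ _ := mul_le_mul_of_nonneg_left (le_sch f hD) (abs_nonneg _)

lemma sch_smul {M : ℕ} (c : ℝ) (f : Idx M → ℝ) : sch (c • f) = |c| * sch f := by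
  refine le_antisymm (sch_smul_le c f) ?_
  rcases eq_or_ne c 0 with rfl | hc
  · simpa using sch_nonneg (M := M) 0
  · have h := sch_smul_le c⁻¹ (c • f)
    rw [smul_smul, inv_mul_cancel₀ hc, one_smul, abs_inv] at h
    have hc' : 0 < |c| := abs_pos.mpr hc
    calc |c| * sch f ≤ |c| * (|c|⁻¹ * sch (c • f)) := mul_le_mul_of_nonneg_left h hc'.le
      _ = sch (c • f) := by rw [← mul_assoc, mul_inv_cancel₀ hc'.ne', one_mul]

lemma nrm_nonneg {M : ℕ} (f : Idx M → ℝ) : 0 ≤ nrm f :=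
  add_nonneg (add_nonneg (norm_nonneg _) (n1_nonneg f)) (sch_nonneg f)

lemma nrm_add {M : ℕ} (f g : Idx M → ℝ) : nrm (f + g) ≤ nrm f + nrm g := by
  unfold nrm
  linarith [norm_add_le f g, n1_add f g, sch_add f g]

lemma nrm_smul {M : ℕ} (c : ℝ) (f : Idx M → ℝ) : nrm (c • f) = |c| * nrm f := by
  unfold nrm
  rw [norm_smul, n1_smul, sch_smul, Real.norm_eq_abs]; ring

lemma norm_le_nrm {M : ℕ} (f : Idx M → ℝ) : ‖f‖ ≤ nrm f := by
  unfold nrm; linarith [n1_nonneg f, sch_nonneg f]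

lemma nrm_eq_zero {M : ℕ} {f : Idx M → ℝ} (h : nrm f = 0) : f = 0 :=
  norm_le_zero_iff.mp (h ▸ norm_le_nrm f)

lemma nrm_zero {M : ℕ} : nrm (0 : Idx M → ℝ) = 0 := by
  have := nrm_smul (M := M) 0 0
  simpa using this

/-- counting: every set of coordinates has an admissible subset with at least half of its points -/
lemma exists_adm {M : ℕ} (B : Finset (Fin M)) :
    ∃ D ∈ adm M, D ⊆ B ∧ B.card ≤ 2 * D.card := by
  refine ⟨B.filter fun ν => B.card ≤ 2 * (ν.val + 1), ?_, Finset.filter_subset _ _, ?_⟩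
  · simp only [adm, Finset.mem_filter, Finset.mem_univ, true_and]
    intro ν hν
    exact (Finset.card_le_card (Finset.filter_subset _ _)).trans hν.2
  · have h1 : (B.filter fun ν => ¬ (B.card ≤ 2 * (ν.val + 1))).card ≤ (range (B.card / 2)).card := by
      refine Finset.card_le_card_of_injOn (fun ν => ν.val) ?_ ?_
      · intro ν hν
        simp only [Finset.coe_filter, Set.mem_ofPred_eq, not_le] at hν
        simp only [Finset.coe_range, Set.mem_Iio]
        omega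
      · intro a _ b _ hab
        exact Fin.ext hab
    have h2 := Finset.card_filter_add_card_filter_not (s := B) (fun ν : Fin M => B.card ≤ 2 * (ν.val + 1))
    rw [Finset.card_range] at h1
    omega

/-- near unconditionality of the block, with constants independent of the size -/
theorem block_nu {M : ℕ} (hM : 2 ≤ M) (f : Idx M → ℝ) (hf : ∀ i, |f i| ≤ 1) {a : ℝ} (ha : 0 < a)
    (S : Finset (Idx M)) (hS : ∀ i ∈ S, a ≤ |f i|) :
    nrm (fun i => if i ∈ S then f i else 0) ≤ (2 + 2 / a + 4 / a ^ 2) * nrm f := by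
  classical
  have hM0 : (0 : ℝ) < M := by exact_mod_cast (by omega : 0 < M)
  set g : Idx M → ℝ := fun i => if i ∈ S then f i else 0 with hg
  have hgf : ∀ i, |g i| ≤ |f i| := by
    intro i
    simp only [hg]
    split_ifs
    · exact le_rfl
    · simp
  -- sup norm
  have h1 : ‖g‖ ≤ ‖f‖ := by
    refine (pi_norm_le_iff_of_nonneg (norm_nonneg _)).mpr fun i => ?_
    exact (hgf i).trans (norm_le_pi_norm f i)
  -- Schreier part
  have h2 : sch g ≤ sch f := by
    refine sch_le _ fun D hD => ?_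
    exact (Finset.sum_le_sum fun ν _ => hgf _).trans (le_sch f hD)
  -- the sum over the N part
  have h3 : |sm g| ≤ 2 / a * sch f := by
    set B : Finset (Fin M) := univ.filter fun ν => Sum.inr ν ∈ S with hB
    obtain ⟨D, hD, hDB, hcard⟩ := exists_adm B
    have e1 : |sm g| ≤ B.card := by
      unfold sm
      calc |∑ ν : Fin M, g (Sum.inr ν)| ≤ ∑ ν : Fin M, |g (Sum.inr ν)| := Finset.abs_sum_le_sum_abs _ _
        _ ≤ ∑ ν : Fin M, (if Sum.inr ν ∈ S then (1 : ℝ) else 0) := by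
            refine Finset.sum_le_sum fun ν _ => ?_
            simp only [hg]
            split_ifs
            · exact hf _
            · simp
        _ = B.card := by rw [← Finset.sum_filter, Finset.sum_const, nsmul_eq_mul, mul_one]
    have e2 : a * D.card ≤ sch f := by
      calc a * D.card = ∑ ν ∈ D, a := by rw [Finset.sum_const, nsmul_eq_mul]; ring
        _ ≤ ∑ ν ∈ D, |f (Sum.inr ν)| := Finset.sum_le_sum fun ν hν => hS _ (by
            have := hDB hν
            simpa [hB] using this)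
        _ ≤ sch f := le_sch f hD
    have e3 : (B.card : ℝ) ≤ 2 * D.card := by exact_mod_cast hcard
    calc |sm g| ≤ 2 * D.card := e1.trans e3
      _ = 2 / a * (a * D.card) := by field_simp
      _ ≤ 2 / a * sch f := mul_le_mul_of_nonneg_left e2 (by positivity)
  -- the P part
  have h4 : ∑ p : Fin (M ^ 2), |g (Sum.inl p)| ≤ 2 * n1 f + 4 / a ^ 2 * ‖f‖ := by
    by_cases hc : 2 / a ≤ M
    · have hs : |sm f / (M : ℝ) ^ 2| ≤ a / 2 := by
        have e1 : |sm f| ≤ M := by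
          unfold sm
          calc |∑ ν : Fin M, f (Sum.inr ν)| ≤ ∑ ν : Fin M, |f (Sum.inr ν)| :=
                Finset.abs_sum_le_sum_abs _ _
            _ ≤ ∑ _ν : Fin M, (1 : ℝ) := Finset.sum_le_sum fun ν _ => hf _
            _ = M := by simp
        rw [abs_div, abs_of_pos (by positivity : (0 : ℝ) < (M : ℝ) ^ 2), div_le_iff₀ (by positivity)]
        have e2 : 1 ≤ a / 2 * M := by
          rw [div_le_iff₀ ha] at hc
          linarith
        nlinarith
      have : ∑ p : Fin (M ^ 2), |g (Sum.inl p)| ≤ 2 * n1 f := by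
        unfold n1
        rw [Finset.mul_sum]
        refine Finset.sum_le_sum fun p _ => ?_
        simp only [hg]
        split_ifs with hp
        · have e3 := hS _ hp
          have e4 : |f (Sum.inl p)| ≤ |f (Sum.inl p) + sm f / (M : ℝ) ^ 2| + |sm f / (M : ℝ) ^ 2| := by
            calc |f (Sum.inl p)| = |(f (Sum.inl p) + sm f / (M : ℝ) ^ 2) - sm f / (M : ℝ) ^ 2| := by
                  congr 1; ring
              _ ≤ _ := abs_sub _ _
          linarith
        · rw [abs_zero]; positivity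
      have e5 : 0 ≤ 4 / a ^ 2 * ‖f‖ := by positivity
      linarith
    · rw [not_le] at hc
      have e1 : ∑ p : Fin (M ^ 2), |g (Sum.inl p)| ≤ (M : ℝ) ^ 2 * ‖f‖ := by
        calc ∑ p : Fin (M ^ 2), |g (Sum.inl p)| ≤ ∑ _p : Fin (M ^ 2), ‖f‖ :=
              Finset.sum_le_sum fun p _ => (hgf _).trans (norm_le_pi_norm f _)
          _ = (M : ℝ) ^ 2 * ‖f‖ := by simp
      have e2 : (M : ℝ) ^ 2 ≤ 4 / a ^ 2 := by
        calc (M : ℝ) ^ 2 ≤ (2 / a) ^ 2 := by
              exact pow_le_pow_left₀ hM0.le hc.le 2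
          _ = 4 / a ^ 2 := by ring
      have e3 := n1_nonneg f
      have e4 := mul_le_mul_of_nonneg_right e2 (norm_nonneg f)
      linarith
  have h5 : n1 g ≤ (2 * n1 f + 4 / a ^ 2 * ‖f‖) + 2 / a * sch f := by
    calc n1 g ≤ ∑ p : Fin (M ^ 2), (|g (Sum.inl p)| + |sm g / (M : ℝ) ^ 2|) :=
          Finset.sum_le_sum fun p _ => abs_add_le _ _
      _ = ∑ p : Fin (M ^ 2), |g (Sum.inl p)| + |sm g| := by
          rw [Finset.sum_add_distrib]
          congr 1
          rw [Finset.sum_const, Finset.card_univ, Fintype.card_fin, nsmul_eq_mul, abs_div,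
            abs_of_pos (by positivity : (0 : ℝ) < (M : ℝ) ^ 2)]
          push_cast
          field_simp
      _ ≤ _ := add_le_add h4 h3
  have p1 : 0 ≤ 2 / a := by positivity
  have p2 : 0 ≤ 4 / a ^ 2 := by positivity
  have q1 := n1_nonneg f
  have q2 := sch_nonneg f
  have q3 := norm_nonneg f
  unfold nrm
  nlinarith [mul_nonneg p1 q1, mul_nonneg p1 q3, mul_nonneg p2 q1, mul_nonneg p2 q2]

/-- the vector with small norm -/
noncomputable def G (M : ℕ) : Idx M → ℝ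
  | Sum.inl _ => 1
  | Sum.inr ν => -((M : ℝ) ^ 2 / ((∑ i ∈ range M, 1 / ((i : ℝ) + 1)) * ((ν.val : ℝ) + 1)))

/-- its signs -/
def sg (M : ℕ) : Idx M → ℝ
  | Sum.inl _ => 1
  | Sum.inr _ => -1

lemma H_pos {M : ℕ} (hM : 2 ≤ M) : 0 < ∑ i ∈ range M, 1 / ((i : ℝ) + 1) :=
  Finset.sum_pos (fun i _ => by positivity) ⟨0, by simp; omega⟩

lemma H_le (M : ℕ) : ∑ i ∈ range M, 1 / ((i : ℝ) + 1) ≤ M := by
  calc ∑ i ∈ range M, 1 / ((i : ℝ) + 1) ≤ ∑ _i ∈ range M, (1 : ℝ) := by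
        refine Finset.sum_le_sum fun i _ => ?_
        rw [div_le_one (by positivity)]
        linarith [(Nat.cast_nonneg i : (0 : ℝ) ≤ i)]
    _ = M := by simp

lemma one_le_G {M : ℕ} (hM : 2 ≤ M) (i : Idx M) : 1 ≤ |G M i| := by
  rcases i with p | ν
  · simp [G]
  · have hH := H_pos hM
    have hH2 := H_le M
    have hM0 : (0 : ℝ) < M := by exact_mod_cast (by omega : 0 < M)
    have hν : ((ν.val : ℝ) + 1) ≤ M := by exact_mod_cast ν.isLt
    show 1 ≤ |-((M : ℝ) ^ 2 / ((∑ i ∈ range M, 1 / ((i : ℝ) + 1)) * ((ν.val : ℝ) + 1)))|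
    rw [abs_neg, abs_of_pos (by positivity), one_le_div (by positivity), sq]
    exact mul_le_mul hH2 hν (by positivity) hM0.le

lemma G_div {M : ℕ} (hM : 2 ≤ M) (i : Idx M) : G M i / |G M i| = sg M i := by
  rcases i with p | ν
  · simp [G, sg]
  · have hH := H_pos hM
    have hM0 : (0 : ℝ) < M := by exact_mod_cast (by omega : 0 < M)
    show -((M : ℝ) ^ 2 / ((∑ i ∈ range M, 1 / ((i : ℝ) + 1)) * ((ν.val : ℝ) + 1))) /
      |-((M : ℝ) ^ 2 / ((∑ i ∈ range M, 1 / ((i : ℝ) + 1)) * ((ν.val : ℝ) + 1)))| = -1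
    have hpos : 0 < (M : ℝ) ^ 2 / ((∑ i ∈ range M, 1 / ((i : ℝ) + 1)) * ((ν.val : ℝ) + 1)) := by
      positivity
    rw [abs_neg, abs_of_pos hpos, neg_div, div_self hpos.ne']

lemma sm_G {M : ℕ} (hM : 2 ≤ M) : sm (G M) = -(M : ℝ) ^ 2 := by
  have hH := H_pos hM
  unfold sm
  show ∑ ν : Fin M, -((M : ℝ) ^ 2 / ((∑ i ∈ range M, 1 / ((i : ℝ) + 1)) * ((ν.val : ℝ) + 1))) = _
  have e : ∀ ν : Fin M, -((M : ℝ) ^ 2 / ((∑ i ∈ range M, 1 / ((i : ℝ) + 1)) * ((ν.val : ℝ) + 1))) =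
      -((M : ℝ) ^ 2 / (∑ i ∈ range M, 1 / ((i : ℝ) + 1))) * (1 / ((ν.val : ℝ) + 1)) := by
    intro ν
    field_simp
  rw [Finset.sum_congr rfl fun ν _ => e ν, ← Finset.mul_sum,
    Fin.sum_univ_eq_sum_range (fun i => 1 / ((i : ℝ) + 1)) M]
  field_simp

theorem nrm_G_le {M : ℕ} (hM : 2 ≤ M) :
    nrm (G M) ≤ 3 * ((M : ℝ) ^ 2 / ∑ i ∈ range M, 1 / ((i : ℝ) + 1)) := by
  have hH := H_pos hM
  have hH2 := H_le M
  have hM0 : (0 : ℝ) < M := by exact_mod_cast (by omega : 0 < M)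
  set H := ∑ i ∈ range M, 1 / ((i : ℝ) + 1) with hHdef
  have h1 : ‖G M‖ ≤ (M : ℝ) ^ 2 / H := by
    refine (pi_norm_le_iff_of_nonneg (by positivity)).mpr fun i => ?_
    rcases i with p | ν
    · show ‖(1 : ℝ)‖ ≤ _
      rw [norm_one, one_le_div hH]
      have : (1 : ℝ) ≤ M := by exact_mod_cast (by omega : 1 ≤ M)
      nlinarith
    · show ‖-((M : ℝ) ^ 2 / (H * ((ν.val : ℝ) + 1)))‖ ≤ _
      rw [norm_neg, Real.norm_of_nonneg (by positivity)]
      refine div_le_div_of_nonneg_left (by positivity) hH ?_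
      nlinarith [(Nat.cast_nonneg ν.val : (0 : ℝ) ≤ (ν.val : ℝ))]
  have h2 : n1 (G M) = 0 := by
    unfold n1
    refine Finset.sum_eq_zero fun p _ => ?_
    rw [sm_G hM]
    show |(1 : ℝ) + -(M : ℝ) ^ 2 / (M : ℝ) ^ 2| = 0
    rw [neg_div, div_self (by positivity)]
    simp
  have h3 : sch (G M) ≤ 2 * ((M : ℝ) ^ 2 / H) := by
    refine sch_le _ fun D hD => ?_
    rcases D.eq_empty_or_nonempty with rfl | hne
    · simp only [Finset.sum_empty]; positivity
    · have hcard : (0 : ℝ) < D.card := by exact_mod_cast hne.card_pos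
      have hD' : ∀ ν ∈ D, D.card ≤ 2 * (ν.val + 1) := by simpa [adm] using hD
      calc ∑ ν ∈ D, |G M (Sum.inr ν)| ≤ ∑ _ν ∈ D, 2 * ((M : ℝ) ^ 2 / H) / D.card := by
            refine Finset.sum_le_sum fun ν hν => ?_
            show |-((M : ℝ) ^ 2 / (H * ((ν.val : ℝ) + 1)))| ≤ _
            rw [abs_neg, abs_of_pos (by positivity)]
            have hν : (D.card : ℝ) ≤ 2 * ((ν.val : ℝ) + 1) := by exact_mod_cast hD' ν hν
            rw [div_le_div_iff₀ (by positivity) hcard]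
            have e1 : 2 * ((M : ℝ) ^ 2 / H) * (H * ((ν.val : ℝ) + 1)) =
                (M : ℝ) ^ 2 * (2 * ((ν.val : ℝ) + 1)) := by field_simp
            rw [e1]
            exact mul_le_mul_of_nonneg_left hν (by positivity)
        _ = 2 * ((M : ℝ) ^ 2 / H) := by
            rw [Finset.sum_const, nsmul_eq_mul]; field_simp
  unfold nrm
  rw [h2]
  linarith

theorem le_nrm_sg {M : ℕ} (hM : 2 ≤ M) : (M : ℝ) ^ 2 / 2 ≤ nrm (sg M) := by
  have hM0 : (0 : ℝ) < M := by exact_mod_cast (by omega : 0 < M)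
  have hM2 : (2 : ℝ) ≤ M := by exact_mod_cast hM
  have h1 : sm (sg M) = -(M : ℝ) := by
    unfold sm
    show ∑ _ν : Fin M, (-1 : ℝ) = _
    simp
  have h2 : n1 (sg M) = (M : ℝ) ^ 2 - M := by
    unfold n1
    rw [h1]
    show ∑ _p : Fin (M ^ 2), |(1 : ℝ) + -(M : ℝ) / (M : ℝ) ^ 2| = _
    have e : (1 : ℝ) + -(M : ℝ) / (M : ℝ) ^ 2 = 1 - 1 / M := by field_simp; ring
    have e2 : (0 : ℝ) ≤ 1 - 1 / M := by
      rw [sub_nonneg, div_le_one hM0]; linarith
    rw [e, abs_of_nonneg e2]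
    simp only [Finset.sum_const, Finset.card_univ, Fintype.card_fin, nsmul_eq_mul]
    push_cast
    field_simp
  have h3 : nrm (sg M) ≥ n1 (sg M) := by
    unfold nrm
    linarith [norm_nonneg (sg M), sch_nonneg (sg M)]
  rw [h2] at h3
  nlinarith

end Pool.Agent.N249.NU
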