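import Pool.Agent.N249.NU.Block
set_option autoImplicit false

/-!
The `ℓ_1` sum of the blocks, and its basis.
-/

namespace Pool.Agent.N249.NU

open Finset Filter Topology

/-- the block as a type carrying the block norm -/
def Blk (M : ℕ) : Type := Idx M → ℝ

instance (M : ℕ) : AddCommGroup (Blk M) := inferInstanceAs (AddCommGroup (Idx M → ℝ))
instance (M : ℕ) : Module ℝ (Blk M) := inferInstanceAs (Module ℝ (Idx M → ℝ))
noncomputable instance (M : ℕ) : Norm (Blk M) := ⟨fun f => nrm (M := M) f⟩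

lemma blk_core (M : ℕ) : NormedSpace.Core ℝ (Blk M) where
  norm_nonneg f := nrm_nonneg (M := M) f
  norm_smul c f := nrm_smul (M := M) c f
  norm_triangle f g := nrm_add (M := M) f g
  norm_eq_zero_iff f := ⟨fun h => nrm_eq_zero (M := M) h, fun h => by rw [h]; exact nrm_zero (M := M)⟩

noncomputable instance (M : ℕ) : NormedAddCommGroup (Blk M) :=
  NormedAddCommGroup.ofCore (blk_core M)

noncomputable instance (M : ℕ) : NormedSpace ℝ (Blk M) := NormedSpace.ofCore (blk_core M)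

instance (M : ℕ) : FiniteDimensional ℝ (Blk M) :=
  inferInstanceAs (FiniteDimensional ℝ (Idx M → ℝ))

instance (M : ℕ) : CompleteSpace (Blk M) := FiniteDimensional.complete ℝ (Blk M)

lemma norm_def {M : ℕ} (f : Blk M) : ‖f‖ = nrm (M := M) f := rfl

/-- evaluation of an element of a block -/
def ev {M : ℕ} (i : Idx M) : Blk M →ₗ[ℝ] ℝ := LinearMap.proj (R := ℝ) (φ := fun _ : Idx M => ℝ) i

lemma abs_ev_le {M : ℕ} (i : Idx M) (f : Blk M) : |ev i f| ≤ ‖f‖ :=
  (norm_le_pi_norm (f : Idx M → ℝ) i).trans (norm_le_nrm (M := M) f)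

/-- the unit vector of a block -/
def uv {M : ℕ} (i : Idx M) : Blk M := (Pi.single i 1 : Idx M → ℝ)

lemma ev_uv {M : ℕ} (i j : Idx M) : ev i (uv j) = if i = j then 1 else 0 := by
  show (Pi.single j (1 : ℝ) : Idx M → ℝ) i = _
  rw [Pi.single_apply]

lemma eq_sum_uv {M : ℕ} (f : Blk M) : f = ∑ i : Idx M, ev i f • uv i := by
  have : ∀ j, ev j f = ev j (∑ i : Idx M, ev i f • uv i) := by
    intro j
    rw [map_sum]
    simp only [map_smul, ev_uv, smul_eq_mul, mul_ite, mul_one, mul_zero]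
    simp
  exact funext this

lemma nrm_single_le {M : ℕ} (i : Idx M) : nrm (Pi.single i (1 : ℝ) : Idx M → ℝ) ≤ 3 := by
  set v : Idx M → ℝ := Pi.single i (1 : ℝ) with hv
  unfold nrm
  have h1 : ‖v‖ ≤ 1 := by
    refine (pi_norm_le_iff_of_nonneg zero_le_one).mpr fun j => ?_
    rw [hv, Pi.single_apply]
    split_ifs <;> simp
  have hM2 : 0 ≤ (M : ℝ) ^ 2 := by positivity
  have habs : ∀ j, |v j| = if j = i then 1 else 0 := by
    intro j
    rw [hv, Pi.single_apply]
    split_ifs <;> simp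
  have hkey : ∑ p : Fin (M ^ 2), |v (Sum.inl p)| + |sm v| ≤ 1 := by
    have e : |sm v| ≤ ∑ ν : Fin M, |v (Sum.inr ν)| := Finset.abs_sum_le_sum_abs _ _
    have e2 : ∑ p : Fin (M ^ 2), |v (Sum.inl p)| + ∑ ν : Fin M, |v (Sum.inr ν)| = 1 := by
      rw [← Fintype.sum_sum_type (fun j => |v j|)]
      simp only [habs]
      simp
    linarith
  have h2 : n1 v ≤ 1 := by
    refine le_trans ?_ hkey
    unfold n1
    calc _ ≤ ∑ p : Fin (M ^ 2), (|v (Sum.inl p)| + |sm v / (M : ℝ) ^ 2|) :=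
          Finset.sum_le_sum fun p _ => abs_add_le _ _
      _ = ∑ p : Fin (M ^ 2), |v (Sum.inl p)| + (M : ℝ) ^ 2 * |sm v / (M : ℝ) ^ 2| := by
        rw [Finset.sum_add_distrib]
        congr 1
        rw [Finset.sum_const, Finset.card_univ, Fintype.card_fin, nsmul_eq_mul]
        push_cast; ring
      _ ≤ _ := by
        refine add_le_add le_rfl ?_
        rw [abs_div, abs_of_nonneg hM2]
        rcases eq_or_lt_of_le hM2 with h0 | h0
        · rw [← h0]; simp
        · rw [mul_div_cancel₀ _ h0.ne']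
  have h3 : sch v ≤ 1 := by
    refine sch_le _ fun D _ => ?_
    calc ∑ ν ∈ D, |v (Sum.inr ν)| ≤ ∑ ν : Fin M, |v (Sum.inr ν)| :=
          Finset.sum_le_sum_of_subset_of_nonneg (Finset.subset_univ _) fun _ _ _ => abs_nonneg _
      _ ≤ ∑ p : Fin (M ^ 2), |v (Sum.inl p)| + ∑ ν : Fin M, |v (Sum.inr ν)| := by
          linarith [Finset.sum_nonneg fun (p : Fin (M ^ 2)) (_ : p ∈ Finset.univ) => abs_nonneg (v (Sum.inl p))]
      _ = 1 := by
        rw [← Fintype.sum_sum_type (fun j => |v j|)]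
        simp only [habs]
        simp
  linarith

lemma norm_uv_le {M : ℕ} (i : Idx M) : ‖uv i‖ ≤ 3 := nrm_single_le i

/-- the space -/
abbrev XX : Type := lp (fun J : ℕ => Blk (J + 2)) 1

/-- coordinates of the space -/
abbrev Cd : Type := Σ J : ℕ, Idx (J + 2)

lemma norm_eq (f : XX) : ‖f‖ = ∑' J, ‖f J‖ := by
  rw [lp.norm_eq_tsum_rpow (by simp)]
  simp

lemma summable_norm (f : XX) : Summable fun J => ‖f J‖ := by
  have := (lp.hasSum_norm (p := 1) (by simp) f).summable
  simpa using this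

/-- coordinate functional -/
def cf (c : Cd) : XX →ₗ[ℝ] ℝ where
  toFun f := ev c.2 (f c.1)
  map_add' f g := by rw [lp.coeFn_add, Pi.add_apply, map_add]
  map_smul' r f := by rw [lp.coeFn_smul, Pi.smul_apply, map_smul]; rfl

lemma cf_apply (c : Cd) (f : XX) : cf c f = ev c.2 (f c.1) := rfl

/-- basis vector -/
noncomputable def bv (c : Cd) : XX := lp.single 1 c.1 (uv c.2)

lemma norm_bv_le (c : Cd) : ‖bv c‖ ≤ 3 := by
  unfold bv
  rw [lp.norm_single zero_lt_one]
  exact norm_uv_le _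

lemma abs_cf_le (c : Cd) (f : XX) : |cf c f| ≤ ‖f‖ :=
  (abs_ev_le _ _).trans (lp.norm_apply_le_norm one_ne_zero f c.1)

lemma cf_single (c : Cd) (J : ℕ) (v : Blk (J + 2)) :
    cf c (lp.single 1 J v) = if h : c.1 = J then ev c.2 (h ▸ v) else 0 := by
  rw [cf_apply]
  split_ifs with h
  · subst h
    rw [lp.single_apply_self]
  · rw [lp.single_apply_ne _ _ _ h, map_zero]

lemma cf_bv (c c' : Cd) : cf c (bv c') = if c = c' then 1 else 0 := by
  unfold bv
  rw [cf_single]
  rcases c with ⟨J, i⟩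
  rcases c' with ⟨J', i'⟩
  by_cases h : J = J'
  · subst h
    simp only [dite_true]
    rw [ev_uv]
    by_cases h2 : i = i'
    · subst h2; simp
    · rw [if_neg h2, if_neg]
      intro h3
      apply h2
      simpa using h3
  · rw [dif_neg h, if_neg]
    intro h3
    exact h (by simpa using congrArg Sigma.fst h3)

lemma ext_cf {f g : XX} (h : ∀ c, cf c f = cf c g) : f = g := by
  apply lp.ext
  funext J
  exact funext fun i => h ⟨J, i⟩

lemma dense_span : ∀ f : XX, ∀ ε : ℝ, 0 < ε → ∃ g ∈ Submodule.span ℝ (Set.range bv), ‖f - g‖ < ε := by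
  intro f ε hε
  have h := lp.hasSum_single (p := 1) (by simp) f
  rw [HasSum, Metric.tendsto_nhds] at h
  obtain ⟨s, hs⟩ := (h ε hε).exists
  refine ⟨∑ J ∈ s, lp.single 1 J (f J), ?_, ?_⟩
  · refine Submodule.sum_mem _ fun J _ => ?_
    have e : lp.single (E := fun J : ℕ => Blk (J + 2)) 1 J (f J) = ∑ i, ev i (f J) • bv ⟨J, i⟩ := by
      apply ext_cf
      rintro ⟨J', i'⟩
      rw [map_sum]
      simp only [map_smul, cf_bv, smul_eq_mul, mul_ite, mul_one, mul_zero]
      rw [cf_single]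
      by_cases hJ : J' = J
      · subst hJ
        simp
      · rw [dif_neg hJ]
        symm
        refine Finset.sum_eq_zero fun i _ => ?_
        rw [if_neg]
        intro h3
        exact hJ (by simpa using congrArg Sigma.fst h3)
    rw [e]
    exact Submodule.sum_mem _ fun i _ => Submodule.smul_mem _ _ (Submodule.subset_span ⟨_, rfl⟩)
  · rw [← dist_eq_norm, dist_comm]
    exact hs

/-- the vector `G` as an element of the block -/
noncomputable def Gb (M : ℕ) : Blk M := G M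

/-- the vector `sg` as an element of the block -/
def sgb (M : ℕ) : Blk M := sg M

lemma ev_Gb {M : ℕ} (i : Idx M) : ev i (Gb M) = G M i := rfl
lemma ev_sgb {M : ℕ} (i : Idx M) : ev i (sgb M) = sg M i := rfl
lemma norm_Gb (M : ℕ) : ‖Gb M‖ = nrm (G M) := rfl
lemma norm_sgb (M : ℕ) : ‖sgb M‖ = nrm (sg M) := rfl

/-- near unconditionality -/
theorem near_uncond {a : ℝ} (ha : 0 < a) (f g : XX) (hf : ∀ c, |cf c f| ≤ 1) (A : Finset Cd)
    (hA : ∀ c ∈ A, a ≤ |cf c f|) (hg : ∀ c, cf c g = if c ∈ A then cf c f else 0) :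
    ‖g‖ ≤ (2 + 2 / a + 4 / a ^ 2) * ‖f‖ := by
  classical
  have key : ∀ J, ‖g J‖ ≤ (2 + 2 / a + 4 / a ^ 2) * ‖f J‖ := by
    intro J
    set S : Finset (Idx (J + 2)) := univ.filter fun i => (⟨J, i⟩ : Cd) ∈ A with hS
    have h := block_nu (M := J + 2) (by omega) (f J) (fun i => hf ⟨J, i⟩) ha S (by
      intro i hi
      have : (⟨J, i⟩ : Cd) ∈ A := by simpa [hS] using hi
      exact hA _ this)
    have e : (fun i => if i ∈ S then (f J) i else 0) = (g J : Idx (J + 2) → ℝ) := by
      funext i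
      have := hg ⟨J, i⟩
      have e1 : cf ⟨J, i⟩ g = (g J : Idx (J + 2) → ℝ) i := rfl
      have e2 : cf ⟨J, i⟩ f = (f J : Idx (J + 2) → ℝ) i := rfl
      rw [e1, e2] at this
      rw [this]
      simp [hS]
    rw [norm_def, norm_def, ← e]
    exact h
  rw [norm_eq g, norm_eq f, ← tsum_mul_left]
  exact (summable_norm g).tsum_le_tsum key ((summable_norm f).mul_left _)

end Pool.Agent.N249.NU
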